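import Mathlib

/-!
# Steinitz's theorem on interior points of convex hulls

Positive spanning families, conic Carathéodory, and Steinitz's theorem.
-/

open Set

namespace Pool.Agent.V11166.Steinitz

section algebra

variable {ι : Type*} {W : Type*} [AddCommGroup W] [Module ℝ W]

/-- The vectors `u i`, `i ∈ A`, positively span the space. -/
def PosSpan (A : Finset ι) (u : ι → W) : Prop :=
  ∀ v : W, ∃ g : ι → ℝ, (∀ i ∈ A, 0 ≤ g i) ∧ ∑ i ∈ A, g i • u i = v

lemma PosSpan.mono [DecidableEq ι] {A B : Finset ι} {u : ι → W} (h : PosSpan A u) (hAB : A ⊆ B) :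
    PosSpan B u := by
  intro v
  obtain ⟨g, hg, hs⟩ := h v
  refine ⟨fun i => if i ∈ A then g i else 0, fun i _ => ?_, ?_⟩
  · show 0 ≤ if i ∈ A then g i else 0
    split_ifs with hi
    · exact hg i hi
    · exact le_rfl
  · rw [← hs, ← Finset.sum_subset hAB]
    · apply Finset.sum_congr rfl
      intro i hi
      simp [hi]
    · intro i _ hi
      simp [hi]

/-- Conic Carathéodory theorem. -/
lemma conic_caratheodory [DecidableEq ι] (u : ι → W) (w : W) (t : Finset ι) (f : ι → ℝ)
    (hf : ∀ i ∈ t, 0 ≤ f i) (hs : ∑ i ∈ t, f i • u i = w) :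
    ∃ t' ⊆ t, ∃ g : ι → ℝ, (∀ i ∈ t', 0 ≤ g i) ∧ ∑ i ∈ t', g i • u i = w ∧
      LinearIndepOn ℝ u (t' : Set ι) := by
  induction t using Finset.strongInduction generalizing f with
  | H t ih =>
    by_cases hli : LinearIndepOn ℝ u (t : Set ι)
    · exact ⟨t, Finset.Subset.refl _, f, hf, hs, hli⟩
    rw [linearIndepOn_finset_iff] at hli
    push Not at hli
    obtain ⟨g, hg0, i1, hi1, hgi1⟩ := hli
    -- make some coefficient positive
    obtain ⟨g, hg0, i1, hi1, hgi1⟩ : ∃ g : ι → ℝ, ∑ i ∈ t, g i • u i = 0 ∧ ∃ i ∈ t, 0 < g i := by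
      rcases lt_or_gt_of_ne hgi1 with h | h
      · refine ⟨fun i => - g i, ?_, i1, hi1, by linarith⟩
        simp only [neg_smul, Finset.sum_neg_distrib, hg0, neg_zero]
      · exact ⟨g, hg0, i1, hi1, h⟩
    obtain ⟨i0, hi0, hmin⟩ := (t.filter (fun i => 0 < g i)).exists_min_image (fun i => f i / g i)
      ⟨i1, Finset.mem_filter.2 ⟨hi1, hgi1⟩⟩
    rw [Finset.mem_filter] at hi0
    obtain ⟨hi0, hgi0⟩ := hi0
    set c : ℝ := f i0 / g i0 with hc
    have hc0 : 0 ≤ c := div_nonneg (hf i0 hi0) hgi0.le
    have hk : f i0 - c * g i0 = 0 := by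
      rw [hc]; field_simp; ring
    obtain ⟨t', ht', g', h1, h2, h3⟩ := ih (t.erase i0) (Finset.erase_ssubset hi0)
      (fun i => f i - c * g i) (by
        intro i hi
        have hit := Finset.mem_of_mem_erase hi
        by_cases hgi : 0 < g i
        · have := hmin i (Finset.mem_filter.2 ⟨hit, hgi⟩)
          rw [le_div_iff₀ hgi] at this
          linarith
        · push Not at hgi
          have := mul_nonpos_of_nonneg_of_nonpos hc0 hgi
          linarith [hf i hit]) (by
        have e1 : ∑ i ∈ t, (f i - c * g i) • u i = w := by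
          simp only [sub_smul, mul_smul, Finset.sum_sub_distrib]
          rw [hs, ← Finset.smul_sum, hg0, smul_zero, sub_zero]
        rw [← Finset.add_sum_erase t _ hi0, hk, zero_smul, zero_add] at e1
        exact e1)
    exact ⟨t', ht'.trans (Finset.erase_subset _ _), g', h1, h2, h3⟩

lemma card_le_of_linearIndepOn [FiniteDimensional ℝ W] {u : ι → W} {t : Finset ι}
    (h : LinearIndepOn ℝ u (t : Set ι)) : t.card ≤ Module.finrank ℝ W := by
  have h1 : LinearIndependent ℝ (fun i : (t : Set ι) => u i) := h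
  have := h1.fintype_card_le_finrank
  simpa using this

/-- **Steinitz's theorem** for positively spanning families. -/
theorem steinitz [DecidableEq ι] [FiniteDimensional ℝ W] {A : Finset ι} {u : ι → W}
    (h : PosSpan A u) : ∃ A' ⊆ A, A'.card ≤ 2 * Module.finrank ℝ W ∧ PosSpan A' u := by
  -- a basis
  obtain ⟨b, hbA, -, hspan, hli⟩ := exists_linearIndepOn_extension (K := ℝ) (v := u)
    (s := (∅ : Set ι)) (t := (A : Set ι)) (linearIndepOn_empty ℝ u) (Set.empty_subset _)
  have hbfin : b.Finite := A.finite_toSet.subset hbA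
  set A1 : Finset ι := hbfin.toFinset with hA1
  have hA1b : (A1 : Set ι) = b := by simp [hA1]
  have hA1A : A1 ⊆ A := by
    rw [← Finset.coe_subset, hA1b]; exact hbA
  have hcard1 : A1.card ≤ Module.finrank ℝ W := by
    apply card_le_of_linearIndepOn (u := u)
    rw [hA1b]; exact hli
  have hcomb : ∀ v : W, ∃ c : ι → ℝ, ∑ i ∈ A1, c i • u i = v := by
    intro v
    obtain ⟨g, -, hg⟩ := h v
    have hv : v ∈ Submodule.span ℝ (u '' (A1 : Set ι)) := by
      rw [← hg, hA1b]
      apply Submodule.sum_mem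
      intro i hi
      exact Submodule.smul_mem _ _ (hspan ⟨i, hi, rfl⟩)
    rw [Submodule.mem_span_image_finset_iff_exists_fun] at hv
    obtain ⟨c, hc⟩ := hv
    refine ⟨fun i => if hi : i ∈ A1 then c ⟨i, hi⟩ else 0, ?_⟩
    rw [← hc, ← Finset.sum_coe_sort A1]
    apply Finset.sum_congr rfl
    intro i _
    simp
  obtain ⟨g0, hg0, hgs⟩ := h (-∑ i ∈ A1, u i)
  obtain ⟨A2, hA2, g, hg, hgs, hli2⟩ := conic_caratheodory u _ A g0 hg0 hgs
  have hcard2 := card_le_of_linearIndepOn hli2
  refine ⟨A1 ∪ A2, Finset.union_subset hA1A hA2, (Finset.card_union_le _ _).trans (by omega), ?_⟩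
  intro v
  obtain ⟨c, hc⟩ := hcomb v
  set T : ℝ := ∑ i ∈ A1, |c i| with hT
  have hT0 : 0 ≤ T := Finset.sum_nonneg fun i _ => abs_nonneg _
  have hTc : ∀ i ∈ A1, 0 ≤ c i + T := by
    intro i hi
    have h1 : |c i| ≤ T := Finset.single_le_sum (f := fun i => |c i|) (fun i _ => abs_nonneg _) hi
    have h2 := neg_abs_le (c i)
    linarith
  refine ⟨fun i => (if i ∈ A1 then c i + T else 0) + (if i ∈ A2 then T * g i else 0), ?_, ?_⟩
  · intro i _
    apply add_nonneg
    · split_ifs with hi
      · exact hTc i hi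
      · exact le_rfl
    · split_ifs with hi
      · exact mul_nonneg hT0 (hg i hi)
      · exact le_rfl
  · simp only [add_smul, Finset.sum_add_distrib, ite_smul, zero_smul, Finset.sum_ite_mem]
    rw [Finset.inter_comm (A1 ∪ A2) A1, Finset.inter_comm (A1 ∪ A2) A2,
      Finset.inter_eq_left.2 (Finset.subset_union_left : A1 ⊆ A1 ∪ A2),
      Finset.inter_eq_left.2 (Finset.subset_union_right : A2 ⊆ A1 ∪ A2)]
    simp only [mul_smul]
    rw [← Finset.smul_sum, ← Finset.smul_sum, hgs, hc]
    simp

end algebra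

section geometry

variable {V : Type*} [NormedAddCommGroup V] [NormedSpace ℝ V]

/-- An interior point of the convex hull is surrounded. -/
lemma posSpan_of_mem_interior {A : Finset V} {x : V}
    (hx : x ∈ interior (convexHull ℝ (A : Set V))) : PosSpan A (fun a => a - x) := by
  intro v
  have hcont : Continuous fun ε : ℝ => x + ε • v := by fun_prop
  have hnhds : ∀ᶠ ε in nhds (0 : ℝ), x + ε • v ∈ interior (convexHull ℝ (A : Set V)) := by
    apply hcont.continuousAt.eventually
    apply isOpen_interior.mem_nhds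
    simpa using hx
  obtain ⟨ε, hε, hε0⟩ : ∃ ε : ℝ, x + ε • v ∈ interior (convexHull ℝ (A : Set V)) ∧ 0 < ε := by
    have h1 : ∀ᶠ ε in nhdsWithin (0 : ℝ) (Ioi 0),
        x + ε • v ∈ interior (convexHull ℝ (A : Set V)) := nhdsWithin_le_nhds hnhds
    exact (h1.and self_mem_nhdsWithin).exists
  obtain ⟨w, hw0, hw1, hwx⟩ := Finset.mem_convexHull'.1 (interior_subset hε)
  refine ⟨fun a => w a / ε, fun a ha => div_nonneg (hw0 a ha) hε0.le, ?_⟩
  have h2 : ∑ a ∈ A, w a • (a - x) = ε • v := by
    simp only [smul_sub, Finset.sum_sub_distrib]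
    rw [hwx, ← Finset.sum_smul, hw1, one_smul]
    abel
  have h3 : ∑ a ∈ A, (w a / ε) • (a - x) = ε⁻¹ • ∑ a ∈ A, w a • (a - x) := by
    rw [Finset.smul_sum]
    apply Finset.sum_congr rfl
    intro a _
    rw [smul_smul]
    congr 1
    field_simp
  rw [h3, h2, smul_smul, inv_mul_cancel₀ hε0.ne', one_smul]

/-- A surrounded point is an interior point of the convex hull. -/
lemma mem_interior_of_posSpan [FiniteDimensional ℝ V] {A : Finset V} {x : V} (hA : A.Nonempty)
    (h : PosSpan A (fun a => a - x)) : x ∈ interior (convexHull ℝ (A : Set V)) := by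
  classical
  -- `x` is a convex combination of `A` with positive weights
  have hxA : x ∈ convexHull ℝ (A : Set V) := by
    obtain ⟨g, hg, hs⟩ := h (-∑ a ∈ A, (a - x))
    have h1 : ∑ a ∈ A, (1 + g a) • (a - x) = 0 := by
      simp only [add_smul, one_smul, Finset.sum_add_distrib]
      rw [hs]; abel
    set S : ℝ := ∑ a ∈ A, (1 + g a) with hS
    have hSpos : 0 < S := Finset.sum_pos (fun a ha => by linarith [hg a ha]) hA
    rw [Finset.mem_convexHull']
    refine ⟨fun a => (1 + g a) / S, fun a ha => div_nonneg (by linarith [hg a ha]) hSpos.le, ?_, ?_⟩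
    · rw [← Finset.sum_div, div_self hSpos.ne']
    · have h2 : ∑ a ∈ A, (1 + g a) • a = S • x := by
        have : ∑ a ∈ A, (1 + g a) • (a - x) = ∑ a ∈ A, (1 + g a) • a - S • x := by
          simp only [smul_sub, Finset.sum_sub_distrib]
          rw [← Finset.sum_smul]
        rw [this] at h1
        exact sub_eq_zero.1 h1
      have h3 : ∑ a ∈ A, ((1 + g a) / S) • a = S⁻¹ • ∑ a ∈ A, (1 + g a) • a := by
        rw [Finset.smul_sum]
        apply Finset.sum_congr rfl
        intro a _
        rw [smul_smul]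
        congr 1
        field_simp
      rw [h3, h2, smul_smul, inv_mul_cancel₀ hSpos.ne', one_smul]
  have hspan : affineSpan ℝ (A : Set V) = ⊤ := by
    have hxs : x ∈ affineSpan ℝ (A : Set V) := convexHull_subset_affineSpan _ hxA
    rw [← AffineSubspace.direction_eq_top_iff_of_nonempty ⟨x, hxs⟩, eq_top_iff]
    intro v _
    obtain ⟨g, hg, hs⟩ := h v
    rw [← hs]
    apply Submodule.sum_mem
    intro a ha
    apply Submodule.smul_mem
    have := AffineSubspace.vsub_mem_direction (subset_affineSpan ℝ _ (Finset.mem_coe.2 ha)) hxs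
    simpa using this
  have hne : (interior (convexHull ℝ (A : Set V))).Nonempty :=
    interior_convexHull_nonempty_iff_affineSpan_eq_top.2 hspan
  by_contra hx
  obtain ⟨f, hf⟩ := geometric_hahn_banach_open_point
    (convex_convexHull ℝ (A : Set V)).interior isOpen_interior hx
  have hfle : ∀ a ∈ A, f a ≤ f x := by
    intro a ha
    have h1 : a ∈ closure (interior (convexHull ℝ (A : Set V))) := by
      rw [(convex_convexHull ℝ (A : Set V)).closure_interior_eq_closure_of_nonempty_interior hne]
      exact subset_closure (subset_convexHull ℝ _ (Finset.mem_coe.2 ha))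
    have h2 : closure (interior (convexHull ℝ (A : Set V))) ⊆ {y | f y ≤ f x} :=
      closure_minimal (fun y hy => (hf y hy).le) (isClosed_le (by fun_prop) (by fun_prop))
    exact h2 h1
  obtain ⟨z, hz⟩ := hne
  obtain ⟨g, hg, hs⟩ := h (x - z)
  have h1 : f (x - z) ≤ 0 := by
    rw [← hs, map_sum]
    apply Finset.sum_nonpos
    intro a ha
    rw [map_smul, map_sub, smul_eq_mul]
    exact mul_nonpos_of_nonneg_of_nonpos (hg a ha) (by linarith [hfle a ha])
  have h2 := hf z hz
  rw [map_sub] at h1
  linarith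

/-- The reduction step: a point of `convexHull B` interior to `convexHull A`, `B ⊆ A`, is already
interior to `convexHull C` and in `convexHull B'`, with `B' ⊆ B`, `B' ⊆ C ⊆ A` and
`C` of size at most `2 d + 1`. -/
lemma reduction [FiniteDimensional ℝ V] {A B : Finset V} {x : V}
    (hx : x ∈ interior (convexHull ℝ (A : Set V))) (hBA : B ⊆ A)
    (hxB : x ∈ convexHull ℝ (B : Set V)) :
    ∃ C ⊆ A, ∃ B' ⊆ B, B' ⊆ C ∧ C.card ≤ 2 * Module.finrank ℝ V + 1 ∧
      x ∈ convexHull ℝ (B' : Set V) ∧ x ∈ interior (convexHull ℝ (C : Set V)) := by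
  classical
  -- a minimal simplex containing `x`
  set B0 := Caratheodory.minCardFinsetOfMemConvexHull hxB with hB0
  have hB0B : B0 ⊆ B := by
    have := Caratheodory.minCardFinsetOfMemConvexHull_subseteq hxB
    exact_mod_cast this
  have hxB0 := Caratheodory.mem_minCardFinsetOfMemConvexHull hxB
  have hind := Caratheodory.affineIndependent_minCardFinsetOfMemConvexHull hxB
  have hne := Caratheodory.minCardFinsetOfMemConvexHull_nonempty hxB
  rw [← hB0] at hxB0 hind hne
  obtain ⟨w, hw0, hw1, hwx⟩ := Finset.mem_convexHull'.1 hxB0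
  -- positive weights, by minimality
  have hwpos : ∀ b ∈ B0, 0 < w b := by
    intro b hb
    refine (hw0 b hb).lt_of_ne ?_
    intro h0
    have hmem : x ∈ convexHull ℝ ((B0.erase b : Finset V) : Set V) := by
      rw [Finset.mem_convexHull']
      refine ⟨w, fun a ha => hw0 a (Finset.mem_of_mem_erase ha), ?_, ?_⟩
      · rw [← Finset.add_sum_erase B0 w hb, ← h0, zero_add] at hw1
        exact hw1
      · rw [← Finset.add_sum_erase B0 _ hb, ← h0, zero_smul, zero_add] at hwx
        exact hwx
    have hcard := Caratheodory.minCardFinsetOfMemConvexHull_card_le_card hxB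
      (t := B0.erase b) (by
        intro y hy
        exact Finset.mem_coe.2 (hB0B (Finset.mem_of_mem_erase (Finset.mem_coe.1 hy)))) hmem
    rw [← hB0, Finset.card_erase_of_mem hb] at hcard
    have : 0 < B0.card := Finset.card_pos.2 hne
    omega
  have hw0sum : ∑ b ∈ B0, w b • (b - x) = 0 := by
    simp only [smul_sub, Finset.sum_sub_distrib]
    rw [hwx, ← Finset.sum_smul, hw1, one_smul, sub_self]
  set L : Submodule ℝ V := Submodule.span ℝ ((fun b => b - x) '' (B0 : Set V)) with hL
  have hLdim : B0.card ≤ Module.finrank ℝ L + 1 := by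
    obtain ⟨k, hk⟩ : ∃ k, B0.card = k + 1 := ⟨B0.card - 1, by
      have : 0 < B0.card := Finset.card_pos.2 hne
      omega⟩
    have h1 : Module.finrank ℝ (vectorSpan ℝ (Set.range ((↑) : B0 → V))) = k := by
      apply hind.finrank_vectorSpan
      simpa using hk
    have h2 : vectorSpan ℝ (Set.range ((↑) : B0 → V)) ≤ L := by
      rw [vectorSpan_def, Submodule.span_le]
      rintro _ ⟨p, ⟨p', rfl⟩, q, ⟨q', rfl⟩, rfl⟩
      have e : (p' : V) -ᵥ (q' : V) = ((p' : V) - x) - ((q' : V) - x) := by
        rw [vsub_eq_sub]; abel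
      show (p' : V) -ᵥ (q' : V) ∈ L
      rw [e]
      exact L.sub_mem (Submodule.subset_span ⟨_, p'.2, rfl⟩)
        (Submodule.subset_span ⟨_, q'.2, rfl⟩)
    have h3 := Submodule.finrank_mono h2
    omega
  -- Steinitz in the quotient
  have hPS := posSpan_of_mem_interior hx
  have hPSq : PosSpan A (fun a => L.mkQ (a - x)) := by
    intro v
    obtain ⟨v', rfl⟩ := L.mkQ_surjective v
    obtain ⟨g, hg, hs⟩ := hPS v'
    refine ⟨g, hg, ?_⟩
    rw [← hs, map_sum]
    simp only [map_smul]
  obtain ⟨A', hA'A, hA'card, hA'⟩ := steinitz hPSq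
  have hq : Module.finrank ℝ (V ⧸ L) + Module.finrank ℝ L = Module.finrank ℝ V :=
    Submodule.finrank_quotient_add_finrank L
  refine ⟨A' ∪ B0, Finset.union_subset hA'A (hB0B.trans hBA), B0, hB0B,
    Finset.subset_union_right, ?_, hxB0, ?_⟩
  · refine (Finset.card_union_le _ _).trans ?_
    have : 0 < B0.card := Finset.card_pos.2 hne
    omega
  · apply mem_interior_of_posSpan (hne.mono Finset.subset_union_right)
    intro v
    obtain ⟨g, hg, hs⟩ := hA' (L.mkQ v)
    have hdiff : v - ∑ a ∈ A', g a • (a - x) ∈ L := by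
      have h1 : L.mkQ (v - ∑ a ∈ A', g a • (a - x)) = 0 := by
        rw [map_sub, map_sum, ← hs, sub_eq_zero]
        apply Finset.sum_congr rfl
        intro a _
        rw [map_smul]
      rwa [← LinearMap.mem_ker, Submodule.ker_mkQ] at h1
    rw [hL, Submodule.mem_span_image_finset_iff_exists_fun] at hdiff
    obtain ⟨c, hc⟩ := hdiff
    set c' : V → ℝ := fun b => if hb : b ∈ B0 then c ⟨b, hb⟩ else 0 with hc'
    have hc2 : ∑ b ∈ B0, c' b • (b - x) = v - ∑ a ∈ A', g a • (a - x) := by
      rw [← hc, ← Finset.sum_coe_sort B0]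
      apply Finset.sum_congr rfl
      intro i _
      simp [hc']
    set T : ℝ := ∑ b ∈ B0, |c' b| / w b with hT
    have hT0 : ∀ b ∈ B0, 0 ≤ c' b + T * w b := by
      intro b hb
      have h1 : |c' b| / w b ≤ T := Finset.single_le_sum (f := fun b => |c' b| / w b)
        (fun i hi => div_nonneg (abs_nonneg _) (hw0 i hi)) hb
      rw [div_le_iff₀ (hwpos b hb)] at h1
      have h2 := neg_abs_le (c' b)
      linarith
    have hsumT : ∑ b ∈ B0, (c' b + T * w b) • (b - x) = v - ∑ a ∈ A', g a • (a - x) := by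
      simp only [add_smul, mul_smul, Finset.sum_add_distrib]
      rw [hc2, ← Finset.smul_sum, hw0sum, smul_zero, add_zero]
    refine ⟨fun i => (if i ∈ A' then g i else 0) + (if i ∈ B0 then c' i + T * w i else 0), ?_, ?_⟩
    · intro i _
      apply add_nonneg
      · split_ifs with hi
        · exact hg i hi
        · exact le_rfl
      · split_ifs with hi
        · exact hT0 i hi
        · exact le_rfl
    · simp only [add_smul, Finset.sum_add_distrib, ite_smul, zero_smul, Finset.sum_ite_mem]
      rw [Finset.inter_comm (A' ∪ B0) A', Finset.inter_comm (A' ∪ B0) B0,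
        Finset.inter_eq_left.2 (Finset.subset_union_left : A' ⊆ A' ∪ B0),
        Finset.inter_eq_left.2 (Finset.subset_union_right : B0 ⊆ A' ∪ B0)]
      have h3 : ∑ b ∈ B0, (c' b • (b - x) + (T * w b) • (b - x)) =
          v - ∑ a ∈ A', g a • (a - x) := by
        rw [← hsumT]
        apply Finset.sum_congr rfl
        intro b _
        rw [add_smul]
      rw [← Finset.sum_add_distrib, h3]
      abel

/-! ### The relative version -/

/-- If the affine span is everything, intrinsic interior and interior agree. -/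
lemma mem_interior_of_mem_intrinsicInterior {s : Set V} (hs : affineSpan ℝ s = ⊤) {x : V}
    (hx : x ∈ intrinsicInterior ℝ s) : x ∈ interior s := by
  have hopen : IsOpen ((affineSpan ℝ s : AffineSubspace ℝ V) : Set V) := by
    rw [hs]; exact isOpen_univ
  have h1 : IsOpen (intrinsicInterior ℝ s) :=
    hopen.isOpenMap_subtype_val _ isOpen_interior
  exact interior_maximal intrinsicInterior_subset h1 hx

/-- The intrinsic interior is monotone among sets with the same affine span. -/
lemma intrinsicInterior_mono {s t : Set V} (hst : s ⊆ t) (hspan : affineSpan ℝ s = affineSpan ℝ t) :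
    intrinsicInterior ℝ s ⊆ intrinsicInterior ℝ t := by
  have key : ∀ S : AffineSubspace ℝ V,
      ((↑) '' interior ((↑) ⁻¹' s : Set S) : Set V) ⊆ (↑) '' interior ((↑) ⁻¹' t : Set S) := by
    intro S
    exact image_mono (interior_mono (preimage_mono hst))
  have h1 := key (affineSpan ℝ s)
  intro x hx
  have h2 := h1 hx
  rw [hspan] at h2
  exact h2

lemma mem_intrinsicFrontier_iff {A : Finset V} {x : V} :
    x ∈ intrinsicFrontier ℝ (convexHull ℝ (A : Set V)) ↔
      x ∈ convexHull ℝ (A : Set V) ∧ x ∉ intrinsicInterior ℝ (convexHull ℝ (A : Set V)) := by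
  have hcl : IsClosed (convexHull ℝ (A : Set V)) :=
    (A.finite_toSet.isCompact_convexHull ℝ).isClosed
  have h1 : intrinsicClosure ℝ (convexHull ℝ (A : Set V)) = convexHull ℝ (A : Set V) :=
    (hcl.preimage continuous_subtype_val).intrinsicClosure
  rw [← intrinsicClosure_sdiff_intrinsicInterior, h1]
  exact Iff.rfl

/-- The reduction step relative to the affine hull. -/
lemma rel_reduction [FiniteDimensional ℝ V] {A B : Finset V} {x : V}
    (hx : x ∈ intrinsicInterior ℝ (convexHull ℝ (A : Set V))) (hBA : B ⊆ A)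
    (hxB : x ∈ convexHull ℝ (B : Set V)) :
    ∃ C ⊆ A, ∃ B' ⊆ B, B' ⊆ C ∧ C.card ≤ 2 * Module.finrank ℝ V + 1 ∧
      x ∈ convexHull ℝ (B' : Set V) ∧
      affineSpan ℝ (C : Set V) = affineSpan ℝ (A : Set V) ∧
      x ∈ intrinsicInterior ℝ (convexHull ℝ (C : Set V)) := by
  classical
  set S := affineSpan ℝ (A : Set V) with hS
  obtain ⟨a0, ha0⟩ : A.Nonempty := by
    rw [← Finset.coe_nonempty, ← convexHull_nonempty_iff (𝕜 := ℝ)]
    exact ⟨x, intrinsicInterior_subset hx⟩
  have ha0S : a0 ∈ S := subset_affineSpan ℝ _ (Finset.mem_coe.2 ha0)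
  let φ : S.direction →ᵃⁱ[ℝ] V :=
    (AffineIsometryEquiv.vaddConst ℝ a0).toAffineIsometry.comp
      S.direction.subtypeₗᵢ.toAffineIsometry
  have hφ : ∀ v : S.direction, φ v = (v : V) + a0 := fun v => rfl
  have hφS : ∀ v : S.direction, φ v ∈ S := by
    intro v
    rw [hφ]
    exact AffineSubspace.vadd_mem_of_mem_direction v.2 ha0S
  have hrange : ∀ p ∈ S, p ∈ Set.range φ := by
    intro p hp
    refine ⟨⟨p - a0, ?_⟩, ?_⟩
    · have := AffineSubspace.vsub_mem_direction hp ha0S
      simpa using this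
    · rw [hφ]; simp
  have hinj : Function.Injective φ := φ.injective
  have hconv : ∀ T : Set S.direction, φ '' convexHull ℝ T = convexHull ℝ (φ '' T) := by
    intro T
    exact AffineMap.image_convexHull φ.toAffineMap T
  have hspanmap : ∀ T : Set S.direction,
      ((affineSpan ℝ (φ '' T) : AffineSubspace ℝ V) : Set V) = φ '' (affineSpan ℝ T) := by
    intro T
    have := AffineSubspace.map_span φ.toAffineMap T
    have h2 := congrArg (fun U : AffineSubspace ℝ V => (U : Set V)) this
    simpa using h2.symm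
  set A0 : Finset S.direction := A.preimage φ hinj.injOn with hA0
  set B0 : Finset S.direction := B.preimage φ hinj.injOn with hB0
  have hA0i : φ '' (A0 : Set S.direction) = A := by
    rw [hA0, Finset.coe_preimage, image_preimage_eq_of_subset]
    intro a ha
    exact hrange a (subset_affineSpan ℝ _ ha)
  have hB0i : φ '' (B0 : Set S.direction) = B := by
    rw [hB0, Finset.coe_preimage, image_preimage_eq_of_subset]
    intro a ha
    exact hrange a (subset_affineSpan ℝ _ (Finset.mem_coe.2 (hBA (Finset.mem_coe.1 ha))))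
  have hB0A0 : B0 ⊆ A0 := by
    intro b hb
    rw [hB0, Finset.mem_preimage] at hb
    rw [hA0, Finset.mem_preimage]
    exact hBA hb
  have hspanA0 : affineSpan ℝ (A0 : Set S.direction) = ⊤ := by
    rw [eq_top_iff]
    intro v _
    have h1 : φ v ∈ ((affineSpan ℝ (φ '' (A0 : Set S.direction)) : AffineSubspace ℝ V) : Set V) := by
      rw [hA0i]; exact hφS v
    rw [hspanmap] at h1
    obtain ⟨v', hv', hvv'⟩ := h1
    rw [← hinj hvv']
    exact hv'
  -- the point
  rw [← hA0i, ← hconv, AffineIsometry.intrinsicInterior_image] at hx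
  obtain ⟨x0, hx0, rfl⟩ := hx
  have hx0int : x0 ∈ interior (convexHull ℝ (A0 : Set S.direction)) :=
    mem_interior_of_mem_intrinsicInterior (by rw [affineSpan_convexHull, hspanA0]) hx0
  have hx0B : x0 ∈ convexHull ℝ (B0 : Set S.direction) := by
    rw [← hB0i, ← hconv] at hxB
    obtain ⟨y, hy, hyx⟩ := hxB
    rw [← hinj hyx]; exact hy
  obtain ⟨C0, hC0A, B0', hB0'B, hB0'C, hcard, hxB0', hxC0⟩ := reduction hx0int hB0A0 hx0B
  have hC0span : affineSpan ℝ (C0 : Set S.direction) = ⊤ :=
    interior_convexHull_nonempty_iff_affineSpan_eq_top.1 ⟨x0, hxC0⟩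
  refine ⟨C0.image φ, ?_, B0'.image φ, ?_, Finset.image_subset_image hB0'C, ?_, ?_, ?_, ?_⟩
  · intro y hy
    obtain ⟨y0, hy0, rfl⟩ := Finset.mem_image.1 hy
    exact Finset.mem_preimage.1 (hC0A hy0)
  · intro y hy
    obtain ⟨y0, hy0, rfl⟩ := Finset.mem_image.1 hy
    exact Finset.mem_preimage.1 (hB0'B hy0)
  · refine Finset.card_image_le.trans (hcard.trans ?_)
    have := Submodule.finrank_le S.direction
    omega
  · rw [Finset.coe_image, ← hconv]
    exact ⟨x0, hxB0', rfl⟩
  · apply SetLike.coe_injective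
    rw [Finset.coe_image, hspanmap, hC0span]
    ext p
    constructor
    · rintro ⟨v, _, rfl⟩
      exact hφS v
    · intro hp
      obtain ⟨v, hv⟩ := hrange p hp
      exact ⟨v, trivial, hv⟩
  · rw [Finset.coe_image, ← hconv, AffineIsometry.intrinsicInterior_image]
    exact ⟨x0, interior_subset_intrinsicInterior hxC0, rfl⟩

end geometry

end Pool.Agent.V11166.Steinitz
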