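import Mathlib

/-!
# Volume lemmas for convex sets: needles, boundedness, and finite colourings
-/

open Set MeasureTheory

namespace Pool.Agent.V11166.Vol

variable {d : ℕ}

/-- A convex set containing a ball and a far point has large volume. -/
lemma needle {C : Set (Fin d → ℝ)} (hC : Convex ℝ C) {p x : Fin d → ℝ} {ρ : ℝ} (hρ : 0 < ρ)
    (hp : Metric.closedBall p ρ ⊆ C) (hx : x ∈ C) (n : ℕ) (hn : 2 * n * ρ ≤ ‖x - p‖) :
    n * volume (Metric.ball (0 : Fin d → ℝ) (ρ / 2)) ≤
      volume (C ∩ Metric.closedBall p ‖x - p‖) := by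
  rcases Nat.eq_zero_or_pos n with rfl | hnpos
  · simp
  have hn' : (1 : ℝ) ≤ n := by exact_mod_cast hnpos
  set L : ℝ := ‖x - p‖ with hL
  have hLpos : 0 < L := by nlinarith
  set c : ℕ → (Fin d → ℝ) := fun k => p + ((k : ℝ) * ρ / L) • (x - p) with hc
  have hdisj : (↑(Finset.range n) : Set ℕ).PairwiseDisjoint fun k => Metric.ball (c k) (ρ / 2) := by
    intro k _ l _ hkl
    apply Metric.ball_disjoint_ball
    have h1 : dist (c k) (c l) = |(k : ℝ) - l| * ρ := by
      rw [dist_eq_norm]
      have : c k - c l = (((k : ℝ) - l) * ρ / L) • (x - p) := by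
        simp only [hc]
        rw [add_sub_add_left_eq_sub, ← sub_smul]
        congr 1
        ring
      rw [this, norm_smul, ← hL, Real.norm_eq_abs, abs_div, abs_mul, abs_of_pos hρ,
        abs_of_pos hLpos]
      field_simp
    have h2 : (1 : ℝ) ≤ |(k : ℝ) - l| := by
      have : (k : ℤ) - l ≠ 0 := by omega
      have h3 := Int.one_le_abs this
      exact_mod_cast h3
    rw [h1]
    nlinarith
  have hsub : (⋃ k ∈ Finset.range n, Metric.ball (c k) (ρ / 2)) ⊆ C ∩ Metric.closedBall p L := by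
    intro y hy
    simp only [mem_iUnion, exists_prop] at hy
    obtain ⟨k, hk, hy⟩ := hy
    have hkn : (k : ℝ) + 1 ≤ n := by exact_mod_cast Finset.mem_range.1 hk
    have hk0 : (0 : ℝ) ≤ k := Nat.cast_nonneg k
    rw [mem_ball_iff_norm] at hy
    set e := y - c k with he
    have hy' : y = c k + e := by rw [he]; abel
    set τ : ℝ := (k : ℝ) * ρ / L with hτ
    have hτ0 : 0 ≤ τ := by positivity
    have hτ1 : τ ≤ 1 / 2 := by
      rw [hτ, div_le_iff₀ hLpos]
      nlinarith
    have h1τ : 0 < 1 - τ := by linarith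
    constructor
    · have h1 : y = (1 - τ) • (p + (1 - τ)⁻¹ • e) + τ • x := by
        rw [hy', smul_add, smul_smul, mul_inv_cancel₀ h1τ.ne', one_smul]
        simp only [hc, ← hτ]
        module
      rw [h1]
      refine hC (hp ?_) hx h1τ.le hτ0 (by ring)
      rw [mem_closedBall_iff_norm, add_sub_cancel_left, norm_smul, norm_inv, Real.norm_eq_abs,
        abs_of_pos h1τ, inv_mul_le_iff₀ h1τ]
      nlinarith
    · rw [mem_closedBall_iff_norm, hy']
      have h2 : c k + e - p = τ • (x - p) + e := by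
        simp only [hc, ← hτ]; abel
      rw [h2]
      refine (norm_add_le _ _).trans ?_
      rw [norm_smul, Real.norm_eq_abs, abs_of_nonneg hτ0, ← hL]
      have h3 : τ * L = k * ρ := by rw [hτ]; field_simp
      rw [h3]
      nlinarith
  calc (n : ENNReal) * volume (Metric.ball (0 : Fin d → ℝ) (ρ / 2))
      = ∑ k ∈ Finset.range n, volume (Metric.ball (c k) (ρ / 2)) := by
        simp only [Measure.addHaar_ball_center]
        rw [Finset.sum_const, Finset.card_range, nsmul_eq_mul]
    _ = volume (⋃ k ∈ Finset.range n, Metric.ball (c k) (ρ / 2)) := by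
        rw [measure_biUnion_finset hdisj (fun _ _ => measurableSet_ball)]
    _ ≤ volume (C ∩ Metric.closedBall p L) := measure_mono hsub

/-- A convex set containing a ball and of finite volume is bounded. -/
lemma bounded_of_finite {C : Set (Fin d → ℝ)} (hC : Convex ℝ C) {p : Fin d → ℝ} {ρ : ℝ}
    (hρ : 0 < ρ) (hp : Metric.closedBall p ρ ⊆ C) (hfin : volume C ≠ ⊤) :
    ∃ R : ℝ, C ⊆ Metric.closedBall p R := by
  by_contra hcon
  push Not at hcon
  apply hfin
  have hv : volume (Metric.ball (0 : Fin d → ℝ) (ρ / 2)) ≠ 0 :=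
    (Metric.measure_ball_pos volume _ (by positivity)).ne'
  have key : ∀ n : ℕ, (n : ENNReal) * volume (Metric.ball (0 : Fin d → ℝ) (ρ / 2)) ≤ volume C := by
    intro n
    obtain ⟨x, hx, hxn⟩ := not_subset.1 (hcon (2 * n * ρ))
    rw [mem_closedBall_iff_norm, not_le] at hxn
    exact (needle hC hρ hp hx n hxn.le).trans (measure_mono inter_subset_left)
  by_contra hne
  obtain ⟨n, hn⟩ := ENNReal.exists_nat_mul_gt hv hne
  exact absurd (key n) (not_le.2 hn)

/-- A point of `ℝ^d` is a convex combination of the points of a finite grid near it. -/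
lemma mem_convexHull_grid {h : ℝ} (hh : 0 < h) (y : Fin d → ℝ) :
    y ∈ convexHull ℝ {z : Fin d → ℝ | (∃ g : Fin d → ℤ, z = fun j => h * g j) ∧
      ∀ j, |z j - y j| ≤ h} := by
  set t : Fin d → Set ℝ := fun j => {h * (⌊y j / h⌋ : ℤ), h * ((⌊y j / h⌋ : ℤ) + 1)} with ht
  have h1 : ∀ j, h * (⌊y j / h⌋ : ℤ) ≤ y j := by
    intro j
    have := Int.floor_le (y j / h)
    rw [le_div_iff₀ hh] at this
    linarith
  have h2 : ∀ j, y j ≤ h * ((⌊y j / h⌋ : ℤ) + 1) := by
    intro j
    have := (Int.lt_floor_add_one (y j / h)).le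
    rw [div_le_iff₀ hh] at this
    linarith
  have hy : y ∈ convexHull ℝ (univ.pi t) := by
    rw [convexHull_pi]
    intro j _
    rw [ht]
    simp only
    rw [convexHull_pair, segment_eq_Icc ((h1 j).trans (h2 j))]
    exact ⟨h1 j, h2 j⟩
  refine convexHull_mono ?_ hy
  intro z hz
  have hz' : ∀ j, z j = h * (⌊y j / h⌋ : ℤ) ∨ z j = h * ((⌊y j / h⌋ : ℤ) + 1) := by
    intro j
    have := hz j trivial
    simpa [ht] using this
  refine ⟨⟨fun j => if z j = h * (⌊y j / h⌋ : ℤ) then ⌊y j / h⌋ else ⌊y j / h⌋ + 1, ?_⟩, ?_⟩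
  · funext j
    by_cases hj : z j = h * (⌊y j / h⌋ : ℤ)
    · simp [hj]
    · rcases hz' j with h3 | h3
      · exact absurd h3 hj
      · simp only [hj, if_false]
        rw [h3]
        push_cast
        ring
  · intro j
    have e1 := h1 j
    have e2 := h2 j
    rw [abs_le]
    rcases hz' j with h3 | h3 <;> rw [h3] <;> constructor <;> nlinarith

/-- Finitely many colours such that, for members of the same colour, a slightly shrunk copy of the
truncation of one is contained in the other. -/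
lemma exists_colouring (d : ℕ) {s0 ε R : ℝ} (hs0 : 0 < s0) (hε0 : 0 < ε) (hε1 : ε < 1)
    (hR : s0 ≤ R) : ∃ r : ℕ, 0 < r ∧ ∀ (ι : Type) (C : ι → Set (Fin d → ℝ)),
      (∀ i, Convex ℝ (C i)) → (∀ i, Metric.closedBall 0 s0 ⊆ C i) →
      ∃ c : ι → Fin r, ∀ i j, c j = c i →
        ∀ x ∈ C i ∩ Metric.closedBall 0 R, (1 - ε) • x ∈ C j := by
  classical
  set h : ℝ := ε * s0 with hh
  have hhpos : 0 < h := mul_pos hε0 hs0
  obtain ⟨m, hm⟩ := exists_nat_ge (R / h)
  let G := Fin d → (Finset.Icc (-(m : ℤ)) m)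
  refine ⟨Fintype.card (G → Bool), Fintype.card_pos, ?_⟩
  intro ι C hC hball
  let pt : G → (Fin d → ℝ) := fun g j => h * ((g j : ℤ) : ℝ)
  refine ⟨fun i => Fintype.equivFin (G → Bool)
    (fun g => decide (pt g ∈ C i ∩ Metric.closedBall 0 R)), ?_⟩
  intro i j hij x hx
  have hij' := (Fintype.equivFin (G → Bool)).injective hij
  have hcol : ∀ g : G, pt g ∈ C i ∩ Metric.closedBall 0 R → pt g ∈ C j ∩ Metric.closedBall 0 R := by
    intro g hg
    have := congrFun hij' g
    simp only [decide_eq_decide] at this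
    exact this.2 hg
  -- the whole cube around `(1 - ε) x` lies in the truncated set
  have hcube : ∀ z : Fin d → ℝ, (∀ k, |z k - ((1 - ε) • x) k| ≤ h) →
      z ∈ C i ∩ Metric.closedBall 0 R := by
    intro z hz
    set e : Fin d → ℝ := ε⁻¹ • (z - (1 - ε) • x) with he
    have he1 : e ∈ Metric.closedBall (0 : Fin d → ℝ) s0 := by
      rw [mem_closedBall_iff_norm, sub_zero, he, norm_smul, norm_inv, Real.norm_eq_abs,
        abs_of_pos hε0, inv_mul_le_iff₀ hε0, ← hh]
      rw [pi_norm_le_iff_of_nonneg hhpos.le]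
      intro k
      exact hz k
    have hz' : z = (1 - ε) • x + ε • e := by
      rw [he, smul_smul, mul_inv_cancel₀ hε0.ne', one_smul]
      abel
    rw [hz']
    constructor
    · exact hC i hx.1 (hball i he1) (by linarith) hε0.le (by ring)
    · exact (convex_closedBall (0 : Fin d → ℝ) R) hx.2 (Metric.closedBall_subset_closedBall hR he1)
        (by linarith) hε0.le (by ring)
  have hconv := mem_convexHull_grid hhpos ((1 - ε) • x)
  refine convexHull_min ?_ (hC j) hconv
  rintro z ⟨⟨g, rfl⟩, hz⟩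
  have hzi := hcube _ hz
  have hgm : ∀ k, g k ∈ Finset.Icc (-(m : ℤ)) m := by
    intro k
    have h1 := hzi.2
    rw [mem_closedBall_iff_norm, sub_zero] at h1
    have h2 := (norm_le_pi_norm (fun j => h * (g j : ℝ)) k).trans h1
    simp only [Real.norm_eq_abs] at h2
    rw [abs_mul, abs_of_pos hhpos] at h2
    have h3 : |(g k : ℝ)| ≤ m := by
      have : |(g k : ℝ)| ≤ R / h := by
        rw [le_div_iff₀ hhpos]; linarith
      linarith
    have h4 : |g k| ≤ m := by exact_mod_cast h3
    rw [Finset.mem_Icc]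
    exact abs_le.1 h4
  exact (hcol (fun k => ⟨g k, hgm k⟩) hzi).1

end Pool.Agent.V11166.Vol
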