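import Pool.Agent.V11166.VolA

/-!
# Normalisation of a family of convex sets
-/

open Set MeasureTheory Matrix

namespace Pool.Agent.V11166.Vol

variable {d : ℕ}

/-- A point with bounded asymmetry. -/
lemma exists_centre (hd : 0 < d) {Kc : Set (Fin d → ℝ)} (hc : IsCompact Kc) (hconv : Convex ℝ Kc)
    (hne : Kc.Nonempty) :
    ∃ o ∈ Kc, ∀ x ∈ Kc, o - ((d : ℝ)⁻¹) • (x - o) ∈ Kc := by
  classical
  have hd' : (0 : ℝ) < d := by exact_mod_cast hd
  have hd1 : (0 : ℝ) < (d : ℝ) + 1 := by positivity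
  obtain ⟨x0, hx0⟩ := hne
  let S : Kc → Set (Fin d → ℝ) := fun x =>
    (fun y => ((d : ℝ) / (d + 1)) • y + ((1 : ℝ) / (d + 1)) • (x : Fin d → ℝ)) '' Kc
  have hSmem : ∀ (x : Kc) (o : Fin d → ℝ), o ∈ S x ↔ o - ((d : ℝ)⁻¹) • ((x : Fin d → ℝ) - o) ∈ Kc := by
    intro x o
    constructor
    · rintro ⟨y, hy, rfl⟩
      have : ((d : ℝ) / (d + 1)) • y + ((1 : ℝ) / (d + 1)) • (x : Fin d → ℝ) - ((d : ℝ)⁻¹) •
          ((x : Fin d → ℝ) - (((d : ℝ) / (d + 1)) • y + ((1 : ℝ) / (d + 1)) • (x : Fin d → ℝ))) = y := by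
        ext j
        simp only [Pi.add_apply, Pi.sub_apply, Pi.smul_apply, smul_eq_mul]
        field_simp
        ring
      simp only [this]
      exact hy
    · intro ho
      refine ⟨_, ho, ?_⟩
      ext j
      simp only [Pi.add_apply, Pi.sub_apply, Pi.smul_apply, smul_eq_mul]
      field_simp
      ring
  have hSconv : ∀ x, Convex ℝ (S x) := by
    intro x a ha b hb s t hs ht hst
    rw [hSmem] at ha hb ⊢
    have := hconv ha hb hs ht hst
    convert this using 1
    ext j
    simp only [Pi.add_apply, Pi.sub_apply, Pi.smul_apply, smul_eq_mul]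
    have e : t = 1 - s := by linarith
    rw [e]
    ring
  have hScomp : ∀ x, IsCompact (S x) := by
    intro x
    apply hc.image
    fun_prop
  have hinter : (⋂ x, S x).Nonempty := by
    apply Convex.helly_theorem_compact' (𝕜 := ℝ) hSconv hScomp
    intro I hI
    rw [Module.finrank_fin_fun] at hI
    -- the point
    set k : ℝ := (d : ℝ) + 1 - I.card with hk
    have hk0 : 0 ≤ k := by
      have : (I.card : ℝ) ≤ d + 1 := by exact_mod_cast hI
      linarith
    refine ⟨((d : ℝ) + 1)⁻¹ • (∑ x ∈ I, (x : Fin d → ℝ) + k • x0), ?_⟩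
    simp only [mem_iInter]
    intro x hx
    rw [hSmem]
    have h1 : ((d : ℝ) + 1)⁻¹ • (∑ x ∈ I, (x : Fin d → ℝ) + k • x0) - ((d : ℝ)⁻¹) •
        ((x : Fin d → ℝ) - ((d : ℝ) + 1)⁻¹ • (∑ x ∈ I, (x : Fin d → ℝ) + k • x0)) =
        ∑ y ∈ I.erase x, ((d : ℝ)⁻¹) • (y : Fin d → ℝ) + ((d : ℝ)⁻¹ * k) • x0 := by
      rw [← Finset.smul_sum, ← Finset.add_sum_erase I _ hx]
      ext j
      simp only [Pi.add_apply, Pi.sub_apply, Pi.smul_apply, smul_eq_mul]
      field_simp
      ring
    rw [h1]
    -- convex combination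
    have hcard : ((I.erase x).card : ℝ) = I.card - 1 := by
      rw [Finset.card_erase_of_mem hx]
      have : 1 ≤ I.card := Finset.card_pos.2 ⟨x, hx⟩
      push_cast [this]
      ring
    by_cases hIe : (I.erase x).Nonempty
    · have hcpos : (0 : ℝ) < (I.erase x).card := by exact_mod_cast Finset.card_pos.2 hIe
      have hmean : ∑ y ∈ I.erase x, (((I.erase x).card : ℝ)⁻¹) • (y : Fin d → ℝ) ∈ Kc := by
        apply hconv.sum_mem
        · intro y _; positivity
        · rw [Finset.sum_const, nsmul_eq_mul]; field_simp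
        · intro y _; exact y.2
      have h2 := hconv hmean hx0 (a := (d : ℝ)⁻¹ * (I.erase x).card) (b := (d : ℝ)⁻¹ * k)
        (by positivity) (by positivity) (by rw [hcard, hk]; field_simp; ring)
      convert h2 using 1
      congr 1
      rw [Finset.smul_sum]
      apply Finset.sum_congr rfl
      intro y _
      rw [smul_smul]
      congr 1
      field_simp
    · rw [Finset.not_nonempty_iff_eq_empty] at hIe
      rw [hIe] at hcard ⊢
      simp only [Finset.card_empty, Nat.cast_zero] at hcard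
      have hk' : k = d := by rw [hk]; linarith
      rw [hk', inv_mul_cancel₀ hd'.ne']
      simpa using hx0
  obtain ⟨o, ho⟩ := hinter
  have ho' : ∀ x ∈ Kc, o - ((d : ℝ)⁻¹) • (x - o) ∈ Kc := fun x hx =>
    (hSmem ⟨x, hx⟩ o).1 (mem_iInter.1 ho ⟨x, hx⟩)
  refine ⟨o, ?_, ho'⟩
  have h1 := ho' x0 hx0
  have h2 := hconv h1 hx0 (a := (d : ℝ) / (d + 1)) (b := 1 / (d + 1)) (by positivity)
    (by positivity) (by field_simp)
  convert h2 using 1
  ext j
  simp only [Pi.add_apply, Pi.sub_apply, Pi.smul_apply, smul_eq_mul]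
  field_simp
  ring

/-- The polar set with respect to `o`. -/
def polar (o : Fin d → ℝ) (C : Set (Fin d → ℝ)) : Set (Fin d → ℝ) :=
  {a | ∀ x ∈ C, a ⬝ᵥ (x - o) ≤ 1}

lemma polar_isClosed (o : Fin d → ℝ) (C : Set (Fin d → ℝ)) : IsClosed (polar o C) := by
  have : polar o C = ⋂ x ∈ C, {a | a ⬝ᵥ (x - o) ≤ 1} := by
    ext a; simp [polar]
  rw [this]
  apply isClosed_biInter
  intro x _
  apply isClosed_le _ continuous_const
  simp only [dotProduct]
  fun_prop

lemma polar_bounded {o : Fin d → ℝ} {C : Set (Fin d → ℝ)} {ρ : ℝ} (hρ : 0 < ρ)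
    (h : Metric.closedBall o ρ ⊆ C) : polar o C ⊆ Metric.closedBall 0 (1 / ρ) := by
  classical
  intro a ha
  rw [mem_closedBall_iff_norm, sub_zero, pi_norm_le_iff_of_nonneg (by positivity)]
  intro j
  rw [Real.norm_eq_abs, le_div_iff₀ hρ]
  have key : ∀ s : ℝ, |s| ≤ ρ → a j * s ≤ 1 := by
    intro s hs
    have h1 : o + Pi.single j s ∈ C := by
      apply h
      rw [mem_closedBall_iff_norm, add_sub_cancel_left, Pi.norm_single]
      exact hs
    have h2 := ha _ h1
    rwa [add_sub_cancel_left, dotProduct_single] at h2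
  have k1 := key ρ (by rw [abs_of_pos hρ])
  have k2 := key (-ρ) (by rw [abs_neg, abs_of_pos hρ])
  rcases abs_cases (a j) with ⟨h1, _⟩ | ⟨h1, _⟩ <;> rw [h1] <;> linarith

/-- Bipolar theorem. -/
lemma mem_closure_of_polar {o : Fin d → ℝ} {C : Set (Fin d → ℝ)} (hC : Convex ℝ C) (ho : o ∈ C)
    {y : Fin d → ℝ} (hy : ∀ a ∈ polar o C, a ⬝ᵥ (y - o) ≤ 1) : y ∈ closure C := by
  classical
  by_contra hcon
  obtain ⟨f, u, hf, hu⟩ := geometric_hahn_banach_closed_point hC.closure isClosed_closure hcon
  have hfo := hf o (subset_closure ho)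
  set b : Fin d → ℝ := fun j => f (Pi.single j 1) with hb
  have hfb : ∀ x, f x = b ⬝ᵥ x := by
    intro x
    have h1 : x = ∑ j, x j • (Pi.single j (1 : ℝ) : Fin d → ℝ) := by
      ext k
      simp [Finset.sum_apply, Pi.single_apply]
    conv_lhs => rw [h1]
    rw [map_sum]
    simp only [map_smul, smul_eq_mul, dotProduct, hb]
    apply Finset.sum_congr rfl
    intro j _
    ring
  have hpos : 0 < u - f o := by linarith
  have ha : (u - f o)⁻¹ • b ∈ polar o C := by
    intro x hx
    rw [smul_dotProduct, dotProduct_sub, ← hfb, ← hfb, smul_eq_mul, inv_mul_le_iff₀ hpos]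
    have := hf x (subset_closure hx)
    linarith
  have h2 := hy _ ha
  rw [smul_dotProduct, dotProduct_sub, ← hfb, ← hfb, smul_eq_mul, inv_mul_le_iff₀ hpos] at h2
  linarith

lemma isClosed_half (o a : Fin d → ℝ) : IsClosed {z : Fin d → ℝ | a ⬝ᵥ (z - o) ≤ 1} := by
  apply isClosed_le _ continuous_const
  simp only [dotProduct]
  fun_prop

/-- **Normalisation.** -/
theorem normalise (hd : 0 < d) {ι : Type} [Fintype ι] [Nonempty ι] (K : ι → Set (Fin d → ℝ))
    (hK : ∀ i, Convex ℝ (K i)) {p : Fin d → ℝ} {ρ : ℝ} (hρ : 0 < ρ)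
    (hball : ∀ i, Metric.closedBall p ρ ⊆ K i) {R : ℝ}
    (hbdd : (⋂ i, K i) ⊆ Metric.closedBall p R) :
    ∃ (o : Fin d → ℝ) (M : Matrix (Fin d) (Fin d) ℝ), M.det ≠ 0 ∧
      (∀ i y, (∀ j, |(M *ᵥ (y - o)) j| ≤ 1 / (2 * d)) → y ∈ K i) ∧
      ∃ J : Finset ι, J.card ≤ 2 * d ∧ ∀ x, (∀ i ∈ J, x ∈ K i) →
        ∀ j, |(M *ᵥ (x - o)) j| ≤ d ^ 2 + d := by
  classical
  have hd' : (0 : ℝ) < d := by exact_mod_cast hd
  set K0 : Set (Fin d → ℝ) := ⋂ i, K i with hK0
  have hK0conv : Convex ℝ K0 := convex_iInter hK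
  have hpK0 : Metric.closedBall p ρ ⊆ K0 := subset_iInter hball
  have hpint : p ∈ interior K0 :=
    interior_mono hpK0 (by
      rw [mem_interior_iff_mem_nhds]
      exact Metric.closedBall_mem_nhds p hρ)
  have hcomp : IsCompact (closure K0) :=
    (isCompact_closedBall p R).closure_of_subset hbdd
  obtain ⟨o, -, ho⟩ := exists_centre hd hcomp hK0conv.closure ⟨p, subset_closure (interior_subset hpint)⟩
  have hoint : o ∈ interior K0 := by
    have h1 := ho p (subset_closure (interior_subset hpint))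
    have h2 := hK0conv.combo_interior_closure_mem_interior hpint h1
      (a := 1 / ((d : ℝ) + 1)) (b := (d : ℝ) / (d + 1)) (by positivity) (by positivity)
      (by field_simp; ring)
    convert h2 using 1
    ext j
    simp only [Pi.add_apply, Pi.sub_apply, Pi.smul_apply, smul_eq_mul]
    field_simp
    ring
  have hoK : ∀ i, o ∈ interior (K i) := fun i => interior_mono (iInter_subset K i) hoint
  obtain ⟨ρ', hρ', hball'⟩ : ∃ ρ' > 0, Metric.closedBall o ρ' ⊆ K0 := by
    obtain ⟨e, he, hsub⟩ := Metric.isOpen_iff.1 isOpen_interior o hoint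
    exact ⟨e / 2, by positivity, (Metric.closedBall_subset_ball (by linarith)).trans
      (hsub.trans interior_subset)⟩
  -- the set of normals
  set A : Set (Fin d → ℝ) := ⋃ i, polar o (K i) with hA
  have hAcomp : IsCompact A := by
    apply Metric.isCompact_of_isClosed_isBounded
    · exact isClosed_iUnion_of_finite fun i => polar_isClosed o (K i)
    · apply (Metric.isBounded_closedBall (x := (0 : Fin d → ℝ)) (r := 1 / ρ')).subset
      apply iUnion_subset
      intro i
      exact polar_bounded hρ' (hball'.trans (iInter_subset K i))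
  have h0A : (0 : Fin d → ℝ) ∈ A := by
    obtain ⟨i⟩ := (inferInstance : Nonempty ι)
    refine mem_iUnion.2 ⟨i, fun x _ => ?_⟩
    rw [zero_dotProduct]
    exact zero_le_one
  obtain ⟨M, hMA, hMmax⟩ : ∃ M : Matrix (Fin d) (Fin d) ℝ, (∀ j, M j ∈ A) ∧
      ∀ N : Matrix (Fin d) (Fin d) ℝ, (∀ j, N j ∈ A) → |N.det| ≤ |M.det| := by
    have hc : IsCompact (Set.pi univ fun _ : Fin d => A) := isCompact_univ_pi fun _ => hAcomp
    have hcont : Continuous fun N : Fin d → Fin d → ℝ => |(Matrix.of N).det| := by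
      apply Continuous.abs
      apply Continuous.matrix_det
      exact continuous_id
    obtain ⟨M, hM, hmax⟩ := hc.exists_isMaxOn ⟨fun _ => 0, fun _ _ => h0A⟩ hcont.continuousOn
    exact ⟨Matrix.of M, fun j => hM j trivial, fun N hN => hmax (show (fun i => N i) ∈ _ from
      fun j _ => hN j)⟩
  have hdet : M.det ≠ 0 := by
    intro hdet0
    have hall : ∀ N : Matrix (Fin d) (Fin d) ℝ, (∀ j, N j ∈ A) → N.det = 0 := by
      intro N hN
      have := hMmax N hN
      rw [hdet0, abs_zero] at this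
      exact abs_eq_zero.1 (le_antisymm this (abs_nonneg _))
    by_cases hspan : Submodule.span ℝ A = ⊤
    · obtain ⟨b, hbA, hbs, hbi⟩ := exists_linearIndependent ℝ A
      rw [hspan] at hbs
      have hbasis : Module.Basis b ℝ (Fin d → ℝ) := Module.Basis.mk hbi (by
        rw [Subtype.range_coe, hbs])
      have hbfin : Fintype b := FiniteDimensional.fintypeBasisIndex hbasis
      have hcard : Fintype.card b = d := by
        rw [← Module.finrank_eq_card_basis hbasis, Module.finrank_fin_fun]
      let e : Fin d ≃ b := (Fintype.equivFinOfCardEq hcard).symm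
      let N : Matrix (Fin d) (Fin d) ℝ := Matrix.of fun j => ((e j : b) : Fin d → ℝ)
      have hN := hall N (fun j => hbA (e j).2)
      have hli : LinearIndependent ℝ N.row := hbi.comp e e.injective
      rw [Matrix.linearIndependent_rows_iff_isUnit, Matrix.isUnit_iff_isUnit_det, hN] at hli
      simp at hli
    · obtain ⟨f, hf0, hf⟩ := Submodule.exists_le_ker_of_lt_top _ (lt_top_iff_ne_top.2 hspan)
      set u : Fin d → ℝ := fun j => f (Pi.single j 1) with hu
      have hfu : ∀ x, f x = x ⬝ᵥ u := by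
        intro x
        have h1 : x = ∑ j, x j • (Pi.single j (1 : ℝ) : Fin d → ℝ) := by
          ext k
          simp [Finset.sum_apply, Pi.single_apply]
        conv_lhs => rw [h1]
        rw [map_sum]
        simp only [map_smul, smul_eq_mul, dotProduct, hu]
      have hune : u ≠ 0 := by
        intro h0
        apply hf0
        ext x
        simp [hfu, h0]
      have hunorm : 0 < ‖u‖ := norm_pos_iff.2 hune
      have hline : ∀ s : ℝ, o + s • u ∈ K0 := by
        intro s
        refine mem_iInter.2 fun i => ?_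
        have h1 : o + (2 * s) • u ∈ closure (K i) := by
          apply mem_closure_of_polar (hK i) (interior_subset (hoK i))
          intro a ha
          rw [add_sub_cancel_left, dotProduct_smul, ← hfu]
          have : f a = 0 := hf (Submodule.subset_span (mem_iUnion.2 ⟨i, ha⟩))
          rw [this]
          simp
        have h2 := (hK i).combo_interior_closure_mem_interior (hoK i) h1
          (a := 1 / 2) (b := 1 / 2) (by norm_num) (by norm_num) (by norm_num)
        apply interior_subset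
        convert h2 using 1
        module
      have h3 := hbdd (hline ((R + ‖o - p‖ + 1) / ‖u‖))
      rw [mem_closedBall_iff_norm] at h3
      have hR0 : 0 ≤ R := by
        have := hbdd (interior_subset hpint)
        rw [mem_closedBall_iff_norm] at this
        exact (norm_nonneg _).trans this
      have h4 : ‖((R + ‖o - p‖ + 1) / ‖u‖) • u‖ = R + ‖o - p‖ + 1 := by
        rw [norm_smul, Real.norm_eq_abs, abs_of_nonneg (by positivity)]
        field_simp
      have h5 : ((R + ‖o - p‖ + 1) / ‖u‖) • u =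
          (o + ((R + ‖o - p‖ + 1) / ‖u‖) • u - p) - (o - p) := by abel
      have h6 := norm_sub_le (o + ((R + ‖o - p‖ + 1) / ‖u‖) • u - p) (o - p)
      rw [← h5, h4] at h6
      linarith
  have hdetpos : 0 < |M.det| := abs_pos.2 hdet
  -- the inscribed parallelepiped
  have hin : ∀ y, (∀ j, |(M *ᵥ (y - o)) j| ≤ 1 / d) → ∀ a ∈ A, a ⬝ᵥ (y - o) ≤ 1 := by
    intro y hy a ha
    set w := y - o with hw
    set c := cramer Mᵀ a with hc
    have h1 : M.det * (a ⬝ᵥ w) = ∑ j, c j * (M *ᵥ w) j := by
      have h2 : Mᵀ *ᵥ c = M.det • a := by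
        rw [hc, mulVec_cramer, det_transpose]
      have h3 : (Mᵀ *ᵥ c) ⬝ᵥ w = c ⬝ᵥ (M *ᵥ w) := by
        rw [mulVec_transpose, dotProduct_mulVec]
      rw [h2, smul_dotProduct, smul_eq_mul] at h3
      rw [h3]
      rfl
    have h2 : ∀ j, |c j| ≤ |M.det| := by
      intro j
      rw [hc, cramer_transpose_apply]
      apply hMmax
      intro k
      by_cases hkj : k = j
      · subst hkj
        rw [updateRow_self]; exact ha
      · rw [updateRow_ne hkj]; exact hMA k
    have h3 : |M.det| * |a ⬝ᵥ w| ≤ |M.det| := by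
      rw [← abs_mul, h1]
      calc |∑ j, c j * (M *ᵥ w) j| ≤ ∑ j, |c j * (M *ᵥ w) j| := Finset.abs_sum_le_sum_abs _ _
        _ ≤ ∑ j : Fin d, |M.det| * (1 / d) := by
          apply Finset.sum_le_sum
          intro j _
          rw [abs_mul]
          exact mul_le_mul (h2 j) (hy j) (abs_nonneg _) (abs_nonneg _)
        _ = |M.det| := by
          rw [Finset.sum_const, Finset.card_univ, Fintype.card_fin, nsmul_eq_mul]
          field_simp
    have h4 : |a ⬝ᵥ w| ≤ 1 := by
      by_contra hcon
      push Not at hcon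
      have := mul_lt_mul_of_pos_left hcon hdetpos
      linarith
    exact (le_abs_self _).trans h4
  have hin2 : ∀ i y, (∀ j, |(M *ᵥ (y - o)) j| ≤ 1 / (2 * d)) → y ∈ K i := by
    intro i y hy
    have h1 : o + (2 : ℝ) • (y - o) ∈ closure (K i) := by
      apply mem_closure_of_polar (hK i) (interior_subset (hoK i))
      intro a ha
      apply hin _ _ a (mem_iUnion.2 ⟨i, ha⟩)
      intro j
      rw [add_sub_cancel_left, mulVec_smul, Pi.smul_apply, smul_eq_mul, abs_mul, abs_two]
      have := hy j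
      have e : (1 : ℝ) / d = 2 * (1 / (2 * d)) := by field_simp
      rw [e]
      linarith
    have h2 := (hK i).combo_interior_closure_mem_interior (hoK i) h1
      (a := 1 / 2) (b := 1 / 2) (by norm_num) (by norm_num) (by norm_num)
    apply interior_subset
    convert h2 using 1
    module
  refine ⟨o, M, hdet, hin2, ?_⟩
  -- the members giving the normals
  have hmem : ∀ j, ∃ i, M j ∈ polar o (K i) := fun j => mem_iUnion.1 (hMA j)
  choose idx hidx using hmem
  have hMv : ∀ (x : Fin d → ℝ) j, (M *ᵥ (x - o)) j = M j ⬝ᵥ (x - o) := fun x j => rfl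
  -- the sum is bounded below on `K0`
  have hsum : ∀ x ∈ K0, -((d : ℝ) ^ 2) ≤ ∑ j, (M *ᵥ (x - o)) j := by
    intro x hx
    have h1 : ∀ j, -(d : ℝ) ≤ (M *ᵥ (x - o)) j := by
      intro j
      have h2 := ho x (subset_closure hx)
      have h3 : o - ((d : ℝ)⁻¹) • (x - o) ∈ closure (K (idx j)) :=
        closure_mono (iInter_subset K (idx j)) h2
      have h4 : closure (K (idx j)) ⊆ {z | M j ⬝ᵥ (z - o) ≤ 1} := by
        exact closure_minimal (fun z hz => hidx j z hz) (isClosed_half o (M j))
      have h5 : M j ⬝ᵥ (o - ((d : ℝ)⁻¹) • (x - o) - o) ≤ 1 := h4 h3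
      have h6 : o - ((d : ℝ)⁻¹) • (x - o) - o = -(((d : ℝ)⁻¹) • (x - o)) := by abel
      rw [h6, dotProduct_neg, dotProduct_smul, smul_eq_mul] at h5
      rw [hMv]
      have h7 : -(d : ℝ) * 1 ≤ -(d : ℝ) * -((d : ℝ)⁻¹ * (M j ⬝ᵥ (x - o))) :=
        mul_le_mul_of_nonpos_left h5 (by linarith)
      have h8 : -(d : ℝ) * -((d : ℝ)⁻¹ * (M j ⬝ᵥ (x - o))) = M j ⬝ᵥ (x - o) := by
        field_simp
      linarith
    calc -((d : ℝ) ^ 2) = ∑ j : Fin d, -(d : ℝ) := by
          rw [Finset.sum_const, Finset.card_univ, Fintype.card_fin, nsmul_eq_mul]; ring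
      _ ≤ _ := Finset.sum_le_sum fun j _ => h1 j
  -- Helly
  let H : Set (Fin d → ℝ) := {x | ∑ j, (M *ᵥ (x - o)) j ≤ -((d : ℝ) ^ 2 + 1)}
  have hHconv : Convex ℝ H := by
    intro x hx y hy s t hs ht hst
    have e : s • x + t • y - o = s • (x - o) + t • (y - o) := by
      have : t = 1 - s := by linarith
      rw [this]; module
    show ∑ j, (M *ᵥ (s • x + t • y - o)) j ≤ _
    rw [e, mulVec_add, mulVec_smul, mulVec_smul]
    simp only [Pi.add_apply, Pi.smul_apply, smul_eq_mul, Finset.sum_add_distrib, ← Finset.mul_sum]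
    have hx' : ∑ j, (M *ᵥ (x - o)) j ≤ -((d : ℝ) ^ 2 + 1) := hx
    have hy' : ∑ j, (M *ᵥ (y - o)) j ≤ -((d : ℝ) ^ 2 + 1) := hy
    have h1 := mul_le_mul_of_nonneg_left hx' hs
    have h2 := mul_le_mul_of_nonneg_left hy' ht
    have h3 : s * -((d : ℝ) ^ 2 + 1) + t * -((d : ℝ) ^ 2 + 1) = -((d : ℝ) ^ 2 + 1) := by
      rw [← add_mul, hst, one_mul]
    linarith
  let F : Option ι → Set (Fin d → ℝ) := fun o => o.elim H K
  obtain ⟨I, hIcard, hIempty⟩ : ∃ I : Finset (Option ι), I.card ≤ d + 1 ∧
      ¬ (⋂ i ∈ I, F i).Nonempty := by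
    by_contra hcon
    push Not at hcon
    have := Convex.helly_theorem' (𝕜 := ℝ) (F := F) (s := Finset.univ) (by
      intro i _
      cases i with
      | none => exact hHconv
      | some i => exact hK i) (by
      intro I _ hI
      rw [Module.finrank_fin_fun] at hI
      exact hcon I hI)
    obtain ⟨x, hx⟩ := this
    simp only [Finset.mem_univ, iInter_true, mem_iInter] at hx
    have hxH : x ∈ H := hx none
    have hxK : x ∈ K0 := mem_iInter.2 fun i => hx (some i)
    have h1 := hsum x hxK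
    have h2 : ∑ j, (M *ᵥ (x - o)) j ≤ -((d : ℝ) ^ 2 + 1) := hxH
    linarith
  set I' : Finset ι := Finset.univ.filter (fun i => some i ∈ I) with hI'
  have hnone : none ∈ I := by
    by_contra hno
    apply hIempty
    refine ⟨o, ?_⟩
    simp only [mem_iInter]
    intro i hi
    cases i with
    | none => exact absurd hi hno
    | some i => exact interior_subset (hoK i)
  have hI'card : I'.card ≤ d := by
    have h1 : (I'.map ⟨some, Option.some_injective ι⟩) ⊆ I.erase none := by
      intro i hi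
      rw [Finset.mem_map] at hi
      obtain ⟨i', hi', rfl⟩ := hi
      rw [hI', Finset.mem_filter] at hi'
      exact Finset.mem_erase.2 ⟨by simp, hi'.2⟩
    have h2 := Finset.card_le_card h1
    rw [Finset.card_map, Finset.card_erase_of_mem hnone] at h2
    omega
  refine ⟨Finset.univ.image idx ∪ I', ?_, ?_⟩
  · refine (Finset.card_union_le _ _).trans ?_
    have : (Finset.univ.image idx).card ≤ d := by
      refine Finset.card_image_le.trans ?_
      simp
    omega
  · intro x hx j
    have hle : ∀ k, (M *ᵥ (x - o)) k ≤ 1 := fun k =>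
      hidx k x (hx _ (Finset.mem_union_left _ (Finset.mem_image_of_mem _ (Finset.mem_univ k))))
    have hxH : x ∉ H := by
      intro hxH
      apply hIempty
      refine ⟨x, ?_⟩
      simp only [mem_iInter]
      intro i hi
      cases i with
      | none => exact hxH
      | some i =>
        exact hx i (Finset.mem_union_right _ (Finset.mem_filter.2 ⟨Finset.mem_univ _, hi⟩))
    have hgt : -((d : ℝ) ^ 2 + 1) < ∑ k, (M *ᵥ (x - o)) k := not_le.1 hxH
    rw [← Finset.add_sum_erase Finset.univ _ (Finset.mem_univ j)] at hgt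
    have h1 : ∑ k ∈ Finset.univ.erase j, (M *ᵥ (x - o)) k ≤ (d : ℝ) - 1 := by
      calc ∑ k ∈ Finset.univ.erase j, (M *ᵥ (x - o)) k ≤ ∑ k ∈ Finset.univ.erase j, (1 : ℝ) :=
            Finset.sum_le_sum fun k _ => hle k
        _ = (d : ℝ) - 1 := by
          rw [Finset.sum_const, Finset.card_erase_of_mem (Finset.mem_univ j), Finset.card_univ,
            Fintype.card_fin, nsmul_eq_mul, mul_one]
          push_cast [hd]
          ring
    have hd1 : (1 : ℝ) ≤ d := by exact_mod_cast hd
    rw [abs_le]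
    constructor
    · linarith
    · have := hle j
      nlinarith

end Pool.Agent.V11166.Vol
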